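import Pool.Agent.W631.CG.Neg
import Pool.Agent.W631.CG.Amb
import Pool.Agent.W631.CG.Pos

/-!
# Both questions are independent of ZFC

`G2` and `H3` are the direct sums of `ℵ₁` copies of `ℤ(2)` and of `ℤ(3)`.

* Some forcing notion forces Martin's axiom for `ℵ₁` dense sets, and this axiom implies that
  `G2` and `H3` are homeomorphic, both for the finest `ℵ₀`-bounded group topologies `𝔊` and for the
  pro-countable topologies `ϱ`.
* Some forcing notion (adding `2^ℵ₁` Cohen reals) forces that `G2` and `H3` are homeomorphic neither
  for the topologies `𝔊` nor for the topologies `ϱ`.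

The forcing language is the one of `Pool.Agent.Helper669.Forcing`: a sentence is the set of the
conditions which force it, `fnot`, `fand`, `fall` are the primitive connectives and `fimp`, `fex`
are defined from them classically; a name for a subset of a ground model set `X` is a map sending
`x : X` to a set of conditions, and `meets N` says that the generic filter meets `N`. The sentences
`FrakHomeoN P` and `RhoHomeoN P` are the translations into the forcing language of the propositions
`FrakHomeo` and `RhoHomeo` (all four are in `Pool.Agent.W631.CG.Defs`), which say, in terms of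
neighbourhoods of `0`, that the spaces are homeomorphic; the theorem also records that they are
equivalent to the existence of a homeomorphism. In the same way `MartinHolds P Om1` is the
translation of `MartinFor Om1` (both are in `Pool.Agent.W684.FM.Defs`), which is equivalent to
Martin's axiom for `ℵ₁` dense sets. The topology `frakG K` is the finest `ℵ₀`-bounded group topology
of `K` and `rho K` is the pro-countable topology (files `Pool.Agent.H38R3.QFinal`, `QTop`).
-/

set_option autoImplicit false

namespace Pool.Agent.Results.MP_8ff4bd_gt.Independence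

open Cardinal H38Q Pool.Agent.W684 Pool.Agent.Helper669.Forcing Pool.Agent.W684.FM
  Pool.Agent.W631.CG

/-- (1) There is a preordered set `P` of forcing conditions such that every condition forces that
all cardinals of the ground model are cardinals, that `ω₁` is preserved and that Martin's axiom for
`ℵ₁` dense sets holds. (2) The two forms of this axiom are equivalent, and it implies that
`(G, 𝔊_G)`, `(H, 𝔊_H)` are homeomorphic and that `(G, ϱ_G)`, `(H, ϱ_H)` are homeomorphic.
(3) There is a preordered set `P` of forcing conditions such that every condition forces that all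
cardinals of the ground model are cardinals, that `ω₁` is preserved, that `(G, 𝔊_G)`, `(H, 𝔊_H)` are
not homeomorphic and that `(G, ϱ_G)`, `(H, ϱ_H)` are not homeomorphic. (4) The sentences used in
(3) are the translations of propositions equivalent to the existence of homeomorphisms, where
`𝔊_K` is the finest `ℵ₀`-bounded group topology of `K`. -/
theorem result :
    (∃ (P : Type) (_ : Preorder P), Nonempty P ∧ ∀ p : P,
      p ∈ CardinalsPreserved.{0, 0} P ∧ p ∈ OmegaOnePreserved P ∧ p ∈ MartinHolds P Om1) ∧
    ((MartinFor Om1 ↔ MartinAxiomAleph1) ∧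
      (MartinAxiomAleph1 →
        Nonempty (@Homeomorph G2 H3 (frakG G2) (frakG H3)) ∧
        Nonempty (@Homeomorph G2 H3 (rho G2) (rho H3)))) ∧
    (∃ (P : Type) (_ : Preorder P), Nonempty P ∧ ∀ p : P,
      p ∈ CardinalsPreserved.{0, 0} P ∧ p ∈ OmegaOnePreserved P ∧
        p ∈ fnot (FrakHomeoN P) ∧ p ∈ fnot (RhoHomeoN P)) ∧
    ((FrakHomeo ↔ Nonempty (@Homeomorph G2 H3 (frakG G2) (frakG H3))) ∧
      (RhoHomeo ↔ Nonempty (@Homeomorph G2 H3 (rho G2) (rho H3))) ∧
      IsLeast (OmegaTops G2) (frakG G2) ∧ IsLeast (OmegaTops H3) (frakG H3)) := by
  have hOm : #Om1 = ℵ₁ := Cardinal.mk_ord_toType _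
  refine ⟨exists_forcing Om1, ⟨martinFor_om1_iff, fun hMA => ?_⟩, ?_, frakHomeo_iff, rhoHomeo_iff,
    isLeast_frakG _, isLeast_frakG _⟩
  · have h := maSigmaCentered hMA
    exact ⟨homeo_sumsW h hOm (le_refl 2) (by norm_num), homeo_rho_of_ma h hOm (le_refl 2)
      (by norm_num)⟩
  · have hJ : ℵ₁ < #(Set Om1) := by
      rw [Cardinal.mk_set, hOm]
      exact Cardinal.cantor _
    refine ⟨Fn (Set Om1) K3, inferInstance, ⟨⟨∅, fun _ => 0⟩⟩, fun p => ?_⟩
    exact ⟨Fn.pccc.cardinalsPreserved p, Fn.pccc.omegaOnePreserved p, not_frak hJ p,
      not_rho hJ p⟩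

end Pool.Agent.Results.MP_8ff4bd_gt.Independence
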